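import Pool.Agent.TWN.Smooth
import Pool.Agent.SLW.Cat
import Pool.Agent.TIW.Sum

/-!
# TWN/Disp: the law of the displacement of a concatenation (helper22)

* `vD S z` : mass of the words of `S` with displacement `z`; `wD S`: mass;
* `vD_cat`, `wD_cat`: concatenations of classes unique as beginnings;
* **`vD_pw`**: powers are iterated convolutions `AvK`.
-/

set_option autoImplicit false

namespace HexObs

namespace TWN

open Finset TS SDN TIW SLW.Cat

/-- mass of the words of S with displacement z -/
noncomputable def vD (S : Set (List Bool)) (z : Pt) : ℝ := (gf {V | V ∈ S ∧ en V = z}).toReal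

/-- mass of the words of S -/
noncomputable def wD (S : Set (List Bool)) : ℝ := (gf S).toReal

lemma gf_fs (F : Finset (List Bool)) : (gf (F : Set (List Bool))).toReal = ∑ t ∈ F, xc ^ t.length := by
  rw [gf_finset, ENNReal.toReal_ofReal (sum_nonneg fun t _ => pow_nonneg xc_pos.le _)]

open Classical in
lemma vD_fs (F : Finset (List Bool)) (z : Pt) : vD (F : Set (List Bool)) z =
    ∑ V ∈ F, if en V = z then xc ^ V.length else 0 := by
  unfold vD
  have h1 : {V | V ∈ (F : Set (List Bool)) ∧ en V = z} = ((F.filter fun V => en V = z : Finset (List Bool)) : Set (List Bool)) := by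
    ext V
    rw [Set.mem_ofPred_eq, mem_coe, mem_coe, mem_filter]
  rw [h1, gf_fs, sum_filter]

lemma wD_fs (F : Finset (List Bool)) : wD (F : Set (List Bool)) = ∑ V ∈ F, xc ^ V.length := gf_fs F

lemma en_app {V U : List Bool} (hV : V ∈ BU) : en (V ++ U) = en V + en U := by
  obtain ⟨T, hT⟩ := hV
  have h := vx_cat (mem_Brd.1 hT).2.2.1 (t := U) U.length
  unfold en
  rw [List.length_append]
  exact h

lemma vD_nonneg (S : Set (List Bool)) (z : Pt) : 0 ≤ vD S z := ENNReal.toReal_nonneg

/-- the words of a small class are finite in number -/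
lemma fin_of_zs {S : Set (List Bool)} (hB : S ⊆ BU) {D : ℤ} (hZ : Zs S D) : S.Finite := by
  refine (LowA.fin_box (D.toNat + 1)).subset fun V hV => ⟨?_, fun i hi => ?_⟩
  · obtain ⟨T, hT⟩ := hB hV
    have h2 := (mem_Brd.1 hT).2.1
    exact ⟨fun _ _ _ => Set.mem_univ _, h2⟩
  · have h1 := hZ V hV i hi
    push_cast
    omega

/-- concatenations as finite sets -/
lemma cat_fs {S T : Finset (List Bool)} [DecidableEq (List Bool)] :
    ((((S ×ˢ T).image fun p : List Bool × List Bool => p.1 ++ p.2 : Finset (List Bool))) : Set (List Bool)) =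
      cat (S : Set (List Bool)) (T : Set (List Bool)) := by
  ext W
  rw [mem_coe, mem_image]
  constructor
  · rintro ⟨p, hp, rfl⟩
    rw [mem_product] at hp
    exact ⟨p.1, hp.1, p.2, hp.2, rfl⟩
  · rintro ⟨V, hV, U, hU, rfl⟩
    exact ⟨(V, U), mem_product.2 ⟨hV, hU⟩, rfl⟩

lemma cat_inj {S T : Finset (List Bool)} (hS : Uq (S : Set (List Bool))) (hT : (T : Set (List Bool)) ⊆ BU) :
    Set.InjOn (fun p : List Bool × List Bool => p.1 ++ p.2) (S ×ˢ T : Finset (List Bool × List Bool)) := by
  rintro ⟨V, U⟩ hp ⟨V', U'⟩ hp' he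
  rw [mem_coe, mem_product] at hp hp'
  have he' : V ++ U = V' ++ U' := he
  have h1 := hS V hp.1 V' hp'.1 U U' (pos_BU (hT hp.2)) (pos_BU (hT hp'.2)) he'
  subst h1
  have h2 := List.append_cancel_left he'
  rw [h2]

open Classical in
/-- **concatenations** -/
lemma vD_cat {S T : Finset (List Bool)} (hS : Uq (S : Set (List Bool))) (hB : (S : Set (List Bool)) ⊆ BU)
    (hT : (T : Set (List Bool)) ⊆ BU) {Y : Finset Pt} (hY : ∀ U ∈ T, en U ∈ Y) (z : Pt) :
    vD (cat (S : Set (List Bool)) (T : Set (List Bool))) z = Av Y (vD (T : Set (List Bool))) (vD (S : Set (List Bool))) z := by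
  rw [← cat_fs, vD_fs, sum_image (cat_inj hS hT), sum_product_right]
  have e1 : ∀ U ∈ T, (∑ V ∈ S, if en (V ++ U) = z then xc ^ (V ++ U).length else 0) =
      xc ^ U.length * vD (S : Set (List Bool)) (z - en U) := by
    intro U _
    rw [vD_fs, mul_sum]
    refine sum_congr rfl fun V hV => ?_
    rw [en_app (hB hV), List.length_append, pow_add, mul_ite, mul_zero, mul_comm (xc ^ U.length)]
    have e2 : (en V + en U = z) ↔ (en V = z - en U) := by
      constructor
      · intro h
        rw [← h, add_sub_cancel_right]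
      · intro h
        rw [h, sub_add_cancel]
    simp only [e2]
  have e3 : ∑ U ∈ T, (∑ V ∈ S, if en (V ++ U) = z then xc ^ (V ++ U).length else 0) =
      ∑ U ∈ T, xc ^ U.length * vD (S : Set (List Bool)) (z - en U) := sum_congr rfl e1
  refine (show _ = _ from e3).trans ?_
  unfold Av
  have e4 : ∑ y ∈ Y, vD (T : Set (List Bool)) y * vD (S : Set (List Bool)) (z - y) =
      ∑ y ∈ Y, ∑ U ∈ T, if en U = y then xc ^ U.length * vD (S : Set (List Bool)) (z - en U) else 0 := by
    refine sum_congr rfl fun y _ => ?_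
    rw [vD_fs, sum_mul]
    refine sum_congr rfl fun U _ => ?_
    by_cases h : en U = y
    · rw [if_pos h, if_pos h, h]
    · rw [if_neg h, if_neg h, zero_mul]
  rw [e4, sum_comm]
  refine sum_congr rfl fun U hU => ?_
  rw [sum_ite_eq, if_pos (hY U hU)]

open Classical in
lemma wD_cat {S T : Finset (List Bool)} (hS : Uq (S : Set (List Bool))) (hT : (T : Set (List Bool)) ⊆ BU) :
    wD (cat (S : Set (List Bool)) (T : Set (List Bool))) = wD (S : Set (List Bool)) * wD (T : Set (List Bool)) := by
  rw [← cat_fs, wD_fs, sum_image (cat_inj hS hT), sum_product, wD_fs, wD_fs, sum_mul_sum]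
  refine sum_congr rfl fun V _ => sum_congr rfl fun U _ => ?_
  rw [List.length_append, pow_add]

/-- powers of a finite class, as finite sets -/
lemma pw_fin {S : Set (List Bool)} (hS : S.Finite) (K : ℕ) : (pw S K).Finite := by
  induction K with
  | zero => exact Set.finite_singleton _
  | succ K ih =>
    classical
    have h1 := cat_fs (S := ih.toFinset) (T := hS.toFinset)
    rw [Set.Finite.coe_toFinset, Set.Finite.coe_toFinset] at h1
    show (cat (pw S K) S).Finite
    rw [← h1]
    exact finite_toSet _

lemma wD_pw {S : Set (List Bool)} (hF : S.Finite) (hS : Uq S) (hB : S ⊆ BU) (K : ℕ) : wD (pw S K) = wD S ^ K := by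
  induction K with
  | zero =>
    have h1 : pw S 0 = (({[]} : Finset (List Bool)) : Set (List Bool)) := by
      rw [coe_singleton]
      rfl
    rw [h1, wD_fs, sum_singleton, pow_zero]
    simp
  | succ K ih =>
    have e1 : pw S (K + 1) = cat (((pw_fin hF K).toFinset : Finset (List Bool)) : Set (List Bool))
        ((hF.toFinset : Finset (List Bool)) : Set (List Bool)) := by
      rw [Set.Finite.coe_toFinset, Set.Finite.coe_toFinset]
      rfl
    rw [e1, wD_cat (by rw [Set.Finite.coe_toFinset]; exact uq_pw hS hB K) (by rw [Set.Finite.coe_toFinset]; exact hB),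
      Set.Finite.coe_toFinset, Set.Finite.coe_toFinset, ih, pow_succ]

/-- **the law of the displacement of the powers** -/
theorem vD_pw {S : Set (List Bool)} (hF : S.Finite) (hS : Uq S) (hB : S ⊆ BU) {Y : Finset Pt}
    (hY : ∀ U ∈ S, en U ∈ Y) (K : ℕ) (z : Pt) : vD (pw S (K + 1)) z = AvK Y (vD S) K (vD S) z := by
  have step : ∀ (K : ℕ) (z : Pt), vD (pw S (K + 1)) z = Av Y (vD S) (vD (pw S K)) z := by
    intro K z
    have e1 : pw S (K + 1) = cat (((pw_fin hF K).toFinset : Finset (List Bool)) : Set (List Bool))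
        ((hF.toFinset : Finset (List Bool)) : Set (List Bool)) := by
      rw [Set.Finite.coe_toFinset, Set.Finite.coe_toFinset]
      rfl
    rw [e1, vD_cat (by rw [Set.Finite.coe_toFinset]; exact uq_pw hS hB K)
      (by rw [Set.Finite.coe_toFinset]; exact pw_BU hB K) (by rw [Set.Finite.coe_toFinset]; exact hB)
      (fun U hU => hY U (hF.mem_toFinset.1 hU)), Set.Finite.coe_toFinset, Set.Finite.coe_toFinset]
  induction K generalizing z with
  | zero =>
    rw [step 0 z]
    show Av Y (vD S) (vD {[]}) z = vD S z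
    unfold Av
    have e0 : ∀ u : Pt, vD ({[]} : Set (List Bool)) u = if u = 0 then 1 else 0 := by
      intro u
      classical
      have h1 : ({[]} : Set (List Bool)) = (({[]} : Finset (List Bool)) : Set (List Bool)) := by rw [coe_singleton]
      rw [h1, vD_fs, sum_singleton]
      have h2 : en ([] : List Bool) = 0 := by decide
      rw [h2, List.length_nil, pow_zero]
      by_cases h3 : u = 0
      · rw [if_pos h3.symm, if_pos h3]
      · rw [if_neg (fun h => h3 h.symm), if_neg h3]
    simp only [e0]
    have e1 : ∀ y : Pt, (vD S y * if z - y = 0 then (1 : ℝ) else 0) = if z = y then vD S z else 0 := by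
      intro y
      by_cases h : z = y
      · rw [if_pos h, if_pos (sub_eq_zero.2 h), mul_one, h]
      · rw [if_neg h, if_neg (fun h' => h (sub_eq_zero.1 h')), mul_zero]
    simp only [e1]
    rw [sum_ite_eq]
    split_ifs with h
    · rfl
    · have h1 : {V | V ∈ S ∧ en V = z} = (((∅ : Finset (List Bool))) : Set (List Bool)) := by
        rw [coe_empty, Set.eq_empty_iff_forall_notMem]
        rintro V ⟨h1, h2⟩
        exact h (h2 ▸ hY V h1)
      unfold vD
      rw [h1, gf_fs, sum_empty]
  | succ K ih =>
    rw [step (K + 1) z]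
    show Av Y (vD S) (vD (pw S (K + 1))) z = Av Y (vD S) (AvK Y (vD S) K (vD S)) z
    unfold Av
    exact sum_congr rfl fun y _ => by rw [ih]

end TWN

end HexObs
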