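import Mathlib

/-!
# TWN/Smooth: many convolutions with a kernel that has a uniform part (helper22)

`Av Y f φ z = ∑_{y ∈ Y} f y φ (z - y)` in an additive group, `f ≥ 0` of mass at most `w`, at least `κ` on the parallelogram
`b0 + i e1 + j e2` (`i, j < m`).

* `box_step`: the sum of a bounded function over a parallelogram moves little under a shift by `c1 e1 + c2 e2`;
* **`smooth`**: `|Av^K (φ (· + h) - φ)| ≤ (e / c) w^K + 2 (w - c)^K` for `|φ| ≤ 1`, `c = κ m²`, `e = 2 κ m (|c1| + |c2|)`.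
-/

set_option autoImplicit false

open Finset

namespace HexObs

namespace TWN

variable {G : Type*} [AddCommGroup G]

/-- the convolution with the kernel f on Y -/
def Av (Y : Finset G) (f : G → ℝ) (φ : G → ℝ) (z : G) : ℝ := ∑ y ∈ Y, f y * φ (z - y)

/-- the iterates -/
def AvK (Y : Finset G) (f : G → ℝ) : ℕ → (G → ℝ) → G → ℝ
  | 0, φ => φ
  | K + 1, φ => Av Y f (AvK Y f K φ)

variable {Y : Finset G} {f : G → ℝ}

/-- the iterates commute with translations -/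
lemma AvK_tr (K : ℕ) (φ : G → ℝ) (b z : G) : AvK Y f K φ (z - b) = AvK Y f K (fun u => φ (u - b)) z := by
  induction K generalizing z with
  | zero => rfl
  | succ K ih =>
    show Av Y f (AvK Y f K φ) (z - b) = Av Y f (AvK Y f K fun u => φ (u - b)) z
    unfold Av
    refine sum_congr rfl fun y _ => ?_
    rw [← ih]
    congr 2
    abel

lemma AvK_sum {ι : Type*} (s : Finset ι) (g : ι → G → ℝ) (K : ℕ) (z : G) :
    AvK Y f K (fun u => ∑ i ∈ s, g i u) z = ∑ i ∈ s, AvK Y f K (g i) z := by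
  induction K generalizing z with
  | zero => rfl
  | succ K ih =>
    show Av Y f (AvK Y f K _) z = ∑ i ∈ s, Av Y f (AvK Y f K (g i)) z
    unfold Av
    rw [sum_comm]
    refine sum_congr rfl fun y _ => ?_
    rw [ih, mul_sum]

lemma AvK_mul (c : ℝ) (φ : G → ℝ) (K : ℕ) (z : G) : AvK Y f K (fun u => c * φ u) z = c * AvK Y f K φ z := by
  induction K generalizing z with
  | zero => rfl
  | succ K ih =>
    show Av Y f (AvK Y f K _) z = c * Av Y f (AvK Y f K φ) z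
    unfold Av
    rw [mul_sum]
    refine sum_congr rfl fun y _ => ?_
    rw [ih]
    ring

lemma AvK_sub (φ ψ : G → ℝ) (K : ℕ) (z : G) : AvK Y f K (fun u => φ u - ψ u) z = AvK Y f K φ z - AvK Y f K ψ z := by
  induction K generalizing z with
  | zero => rfl
  | succ K ih =>
    show Av Y f (AvK Y f K _) z = Av Y f (AvK Y f K φ) z - Av Y f (AvK Y f K ψ) z
    unfold Av
    rw [← sum_sub_distrib]
    refine sum_congr rfl fun y _ => ?_
    rw [ih]
    ring

/-- bounded functions -/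
lemma AvK_bd (hf : ∀ y ∈ Y, 0 ≤ f y) {w : ℝ} (hw : ∑ y ∈ Y, f y ≤ w) {φ : G → ℝ} {e : ℝ} (hφ : ∀ z, |φ z| ≤ e)
    (K : ℕ) (z : G) : |AvK Y f K φ z| ≤ e * w ^ K := by
  have hw0 : 0 ≤ w := (sum_nonneg hf).trans hw
  have he : 0 ≤ e := (abs_nonneg _).trans (hφ z)
  induction K generalizing z with
  | zero =>
    rw [pow_zero, mul_one]
    exact hφ z
  | succ K ih =>
    show |Av Y f (AvK Y f K φ) z| ≤ _
    unfold Av
    refine (abs_sum_le_sum_abs _ _).trans ?_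
    calc ∑ y ∈ Y, |f y * AvK Y f K φ (z - y)| ≤ ∑ y ∈ Y, f y * (e * w ^ K) := by
          refine sum_le_sum fun y hy => ?_
          rw [abs_mul, abs_of_nonneg (hf y hy)]
          exact mul_le_mul_of_nonneg_left (ih _) (hf y hy)
      _ = (∑ y ∈ Y, f y) * (e * w ^ K) := by rw [sum_mul]
      _ ≤ w * (e * w ^ K) := mul_le_mul_of_nonneg_right hw (by positivity)
      _ = _ := by ring

/-- a function that moves little under the steps e1, e2 -/
lemma lip_zsmul {F : G → ℝ} {e : G} {L : ℝ} (h : ∀ z, |F (z + e) - F z| ≤ L) (c : ℤ) (z : G) :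
    |F (z + c • e) - F z| ≤ L * |(c : ℝ)| := by
  have hL : 0 ≤ L := (abs_nonneg _).trans (h z)
  have key : ∀ n : ℕ, ∀ z, |F (z + (n : ℤ) • e) - F z| ≤ L * n := by
    intro n
    induction n with
    | zero =>
      intro z
      simp
    | succ n ih =>
      intro z
      have h1 := ih z
      have h2 := h (z + (n : ℤ) • e)
      have e1 : z + ((n + 1 : ℕ) : ℤ) • e = z + (n : ℤ) • e + e := by
        push_cast
        rw [add_smul, one_smul, add_assoc]
      rw [e1]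
      have h3 := abs_sub_le (F (z + (n : ℤ) • e + e)) (F (z + (n : ℤ) • e)) (F z)
      push_cast
      linarith
  rcases Int.eq_nat_or_neg c with ⟨n, rfl | rfl⟩
  · have h1 := key n z
    rw [Int.cast_natCast, Nat.abs_cast]
    exact h1
  · have h1 := key n (z + (-(n : ℤ)) • e)
    have e1 : z + (-(n : ℤ)) • e + (n : ℤ) • e = z := by
      rw [neg_smul]
      abel
    rw [e1] at h1
    rw [Int.cast_neg, abs_neg, Int.cast_natCast, Nat.abs_cast, abs_sub_comm]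
    exact h1

/-- the sum over the parallelogram -/
def Bs (m : ℕ) (b0 e1 e2 : G) (φ : G → ℝ) (z : G) : ℝ :=
  ∑ i ∈ range m, ∑ j ∈ range m, φ (z - (b0 + (i : ℤ) • e1 + (j : ℤ) • e2))

lemma tele_step {φ : G → ℝ} (hφ : ∀ z, |φ z| ≤ 1) (m : ℕ) (e z : G) :
    |∑ i ∈ range m, (φ (z + e - (i : ℤ) • e) - φ (z - (i : ℤ) • e))| ≤ 2 := by
  have h1 : ∑ i ∈ range m, (φ (z + e - (i : ℤ) • e) - φ (z - (i : ℤ) • e)) = φ (z + e) - φ (z + e - (m : ℤ) • e) := by
    have h2 := sum_range_sub' (fun i : ℕ => φ (z + e - (i : ℤ) • e)) m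
    simp only [Nat.cast_zero, zero_smul, sub_zero] at h2
    rw [← h2]
    refine sum_congr rfl fun i _ => ?_
    congr 2
    push_cast
    rw [add_smul, one_smul]
    abel
  rw [h1]
  have h3 := abs_sub (φ (z + e)) (φ (z + e - (m : ℤ) • e))
  have h4 := hφ (z + e)
  have h5 := hφ (z + e - (m : ℤ) • e)
  linarith

/-- **the sum over the parallelogram moves little** -/
lemma box_step {φ : G → ℝ} (hφ : ∀ z, |φ z| ≤ 1) (m : ℕ) (b0 e1 e2 : G) (c1 c2 : ℤ) (z : G) :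
    |Bs m b0 e1 e2 φ (z + (c1 • e1 + c2 • e2)) - Bs m b0 e1 e2 φ z| ≤ 2 * m * (|(c1 : ℝ)| + |(c2 : ℝ)|) := by
  have s1 : ∀ z, |Bs m b0 e1 e2 φ (z + e1) - Bs m b0 e1 e2 φ z| ≤ 2 * m := by
    intro z
    unfold Bs
    rw [← sum_sub_distrib]
    simp only [← sum_sub_distrib]
    rw [sum_comm]
    refine (abs_sum_le_sum_abs _ _).trans ?_
    calc ∑ j ∈ range m, |∑ i ∈ range m, (φ (z + e1 - (b0 + (i : ℤ) • e1 + (j : ℤ) • e2)) -
          φ (z - (b0 + (i : ℤ) • e1 + (j : ℤ) • e2)))| ≤ ∑ _j ∈ range m, (2 : ℝ) := by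
          refine sum_le_sum fun j _ => ?_
          have h := tele_step hφ m e1 (z - b0 - (j : ℤ) • e2)
          refine le_trans (le_of_eq ?_) h
          congr 1
          refine sum_congr rfl fun i _ => ?_
          congr 2 <;> abel
      _ = 2 * m := by
          rw [sum_const, card_range, nsmul_eq_mul]
          ring
  have s2 : ∀ z, |Bs m b0 e1 e2 φ (z + e2) - Bs m b0 e1 e2 φ z| ≤ 2 * m := by
    intro z
    unfold Bs
    rw [← sum_sub_distrib]
    simp only [← sum_sub_distrib]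
    refine (abs_sum_le_sum_abs _ _).trans ?_
    calc ∑ i ∈ range m, |∑ j ∈ range m, (φ (z + e2 - (b0 + (i : ℤ) • e1 + (j : ℤ) • e2)) -
          φ (z - (b0 + (i : ℤ) • e1 + (j : ℤ) • e2)))| ≤ ∑ _j ∈ range m, (2 : ℝ) := by
          refine sum_le_sum fun i _ => ?_
          have h := tele_step hφ m e2 (z - b0 - (i : ℤ) • e1)
          refine le_trans (le_of_eq ?_) h
          congr 1
          refine sum_congr rfl fun j _ => ?_
          congr 2 <;> abel
      _ = 2 * m := by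
          rw [sum_const, card_range, nsmul_eq_mul]
          ring
  have t1 := lip_zsmul s1 c1 z
  have t2 := lip_zsmul s2 c2 (z + c1 • e1)
  rw [add_assoc] at t2
  have t3 := abs_sub_le (Bs m b0 e1 e2 φ (z + (c1 • e1 + c2 • e2))) (Bs m b0 e1 e2 φ (z + c1 • e1)) (Bs m b0 e1 e2 φ z)
  linarith

/-- **smoothing** -/
theorem smooth [DecidableEq G] {w κ : ℝ} {m : ℕ} {b0 e1 e2 : G} (hf : ∀ y ∈ Y, 0 ≤ f y) (hw : ∑ y ∈ Y, f y ≤ w)
    (hκ : 0 < κ) (hm : 1 ≤ m)
    (hin : Set.InjOn (fun p : ℕ × ℕ => b0 + (p.1 : ℤ) • e1 + (p.2 : ℤ) • e2) (range m ×ˢ range m : Finset (ℕ × ℕ)))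
    (hB : ∀ i, i < m → ∀ j, j < m → b0 + (i : ℤ) • e1 + (j : ℤ) • e2 ∈ Y ∧ κ ≤ f (b0 + (i : ℤ) • e1 + (j : ℤ) • e2))
    {φ : G → ℝ} (hφ : ∀ z, |φ z| ≤ 1) (c1 c2 : ℤ) (K : ℕ) (z : G) :
    |AvK Y f K (fun u => φ (u + (c1 • e1 + c2 • e2)) - φ u) z| ≤
      2 * κ * m * (|(c1 : ℝ)| + |(c2 : ℝ)|) / (κ * m ^ 2) * w ^ K + 2 * (w - κ * m ^ 2) ^ K := by
  have hmR : (1 : ℝ) ≤ m := by exact_mod_cast hm
  obtain ⟨c, hc⟩ : ∃ c, c = κ * (m : ℝ) ^ 2 := ⟨_, rfl⟩
  have hc0 : 0 < c := by rw [hc]; positivity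
  obtain ⟨e, he⟩ : ∃ e, e = 2 * κ * m * (|(c1 : ℝ)| + |(c2 : ℝ)|) := ⟨_, rfl⟩
  have he0 : 0 ≤ e := by rw [he]; positivity
  rw [← hc, ← he]
  obtain ⟨B, hBd⟩ : ∃ B : Finset G, B = (range m ×ˢ range m).image fun p : ℕ × ℕ => b0 + (p.1 : ℤ) • e1 + (p.2 : ℤ) • e2 := ⟨_, rfl⟩
  have hBY : B ⊆ Y := by
    intro y hy
    rw [hBd] at hy
    obtain ⟨p, hp, rfl⟩ := mem_image.1 hy
    rw [mem_product, mem_range, mem_range] at hp
    exact (hB _ hp.1 _ hp.2).1
  have hBf : ∀ y ∈ B, κ ≤ f y := by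
    intro y hy
    rw [hBd] at hy
    obtain ⟨p, hp, rfl⟩ := mem_image.1 hy
    rw [mem_product, mem_range, mem_range] at hp
    exact (hB _ hp.1 _ hp.2).2
  have hsB : ∀ g : G → ℝ, ∑ y ∈ B, g y = ∑ i ∈ range m, ∑ j ∈ range m, g (b0 + (i : ℤ) • e1 + (j : ℤ) • e2) := by
    intro g
    rw [hBd, sum_image hin, sum_product]
  obtain ⟨r, hr⟩ : ∃ r : G → ℝ, r = fun y => f y - if y ∈ B then κ else 0 := ⟨_, rfl⟩
  have hr0 : ∀ y ∈ Y, 0 ≤ r y := by
    intro y hy
    rw [hr]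
    show 0 ≤ f y - if y ∈ B then κ else 0
    split_ifs with h
    · linarith [hBf y h]
    · linarith [hf y hy]
  have hBc : ∑ y ∈ Y, (if y ∈ B then κ else 0) = c := by
    rw [← sum_filter, filter_mem_eq_inter, inter_eq_right.2 hBY, hsB fun _ => κ, sum_const, sum_const, card_range,
      nsmul_eq_mul, nsmul_eq_mul, hc]
    ring
  have hrw : ∑ y ∈ Y, r y ≤ w - c := by
    rw [hr, sum_sub_distrib, hBc]
    linarith
  have hwc : 0 ≤ w - c := (sum_nonneg hr0).trans hrw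
  have hw0 : 0 ≤ w := by linarith
  obtain ⟨ψ, hψ⟩ : ∃ ψ : G → ℝ, ψ = fun u => φ (u + (c1 • e1 + c2 • e2)) - φ u := ⟨_, rfl⟩
  rw [← hψ]
  -- the uniform part
  have hU : ∀ u, |κ * ∑ y ∈ B, ψ (u - y)| ≤ e := by
    intro u
    have h1 := box_step hφ m b0 e1 e2 c1 c2 u
    have e1' : ∑ y ∈ B, ψ (u - y) = Bs m b0 e1 e2 φ (u + (c1 • e1 + c2 • e2)) - Bs m b0 e1 e2 φ u := by
      rw [hsB fun y => ψ (u - y)]
      unfold Bs
      rw [← sum_sub_distrib]
      refine sum_congr rfl fun i _ => ?_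
      rw [← sum_sub_distrib]
      refine sum_congr rfl fun j _ => ?_
      rw [hψ]
      show φ (u - _ + (c1 • e1 + c2 • e2)) - φ (u - _) = _
      congr 2
      abel
    rw [e1', abs_mul, abs_of_pos hκ, he]
    calc κ * |Bs m b0 e1 e2 φ (u + (c1 • e1 + c2 • e2)) - Bs m b0 e1 e2 φ u| ≤
          κ * (2 * m * (|(c1 : ℝ)| + |(c2 : ℝ)|)) := mul_le_mul_of_nonneg_left h1 hκ.le
      _ = _ := by ring
  induction K generalizing z with
  | zero =>
    rw [pow_zero, pow_zero, mul_one, mul_one]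
    have h1 : |ψ z| ≤ 2 := by
      rw [hψ]
      show |φ (z + (c1 • e1 + c2 • e2)) - φ z| ≤ 2
      have h3 := abs_sub (φ (z + (c1 • e1 + c2 • e2))) (φ z)
      have h4 := hφ (z + (c1 • e1 + c2 • e2))
      have h5 := hφ z
      linarith
    have h2 : 0 ≤ e / c := by positivity
    have h3 : AvK Y f 0 ψ z = ψ z := rfl
    rw [h3]
    linarith
  | succ K ih =>
    have e1' : AvK Y f (K + 1) ψ z = AvK Y f K (fun u => κ * ∑ y ∈ B, ψ (u - y)) z + ∑ y ∈ Y, r y * AvK Y f K ψ (z - y) := by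
      have a1 : AvK Y f (K + 1) ψ z = ∑ y ∈ Y, f y * AvK Y f K ψ (z - y) := rfl
      have a2 : AvK Y f K (fun u => κ * ∑ y ∈ B, ψ (u - y)) z = κ * ∑ y ∈ B, AvK Y f K ψ (z - y) := by
        rw [AvK_mul κ (fun u => ∑ y ∈ B, ψ (u - y)), AvK_sum B (fun y u => ψ (u - y))]
        congr 1
        refine sum_congr rfl fun y _ => ?_
        rw [AvK_tr]
      have a3 : κ * ∑ y ∈ B, AvK Y f K ψ (z - y) = ∑ y ∈ Y, (if y ∈ B then κ else 0) * AvK Y f K ψ (z - y) := by
        simp only [ite_mul, zero_mul]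
        rw [← sum_filter, filter_mem_eq_inter, inter_eq_right.2 hBY, mul_sum]
      rw [a1, a2, a3, ← sum_add_distrib]
      refine sum_congr rfl fun y _ => ?_
      rw [hr]
      ring
    rw [e1']
    have b1 : |AvK Y f K (fun u => κ * ∑ y ∈ B, ψ (u - y)) z| ≤ e * w ^ K := AvK_bd hf hw hU K z
    have b2 : |∑ y ∈ Y, r y * AvK Y f K ψ (z - y)| ≤ (w - c) * (e / c * w ^ K + 2 * (w - c) ^ K) := by
      refine (abs_sum_le_sum_abs _ _).trans ?_
      calc ∑ y ∈ Y, |r y * AvK Y f K ψ (z - y)| ≤ ∑ y ∈ Y, r y * (e / c * w ^ K + 2 * (w - c) ^ K) := by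
            refine sum_le_sum fun y hy => ?_
            rw [abs_mul, abs_of_nonneg (hr0 y hy)]
            exact mul_le_mul_of_nonneg_left (ih _) (hr0 y hy)
        _ = (∑ y ∈ Y, r y) * (e / c * w ^ K + 2 * (w - c) ^ K) := by rw [sum_mul]
        _ ≤ _ := mul_le_mul_of_nonneg_right hrw (by positivity)
    have b3 := abs_add_le (AvK Y f K (fun u => κ * ∑ y ∈ B, ψ (u - y)) z) (∑ y ∈ Y, r y * AvK Y f K ψ (z - y))
    have b4 : e * w ^ K + (w - c) * (e / c * w ^ K + 2 * (w - c) ^ K) = e / c * w ^ (K + 1) + 2 * (w - c) ^ (K + 1) := by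
      rw [pow_succ, pow_succ]
      field_simp
      ring
    linarith

end TWN

end HexObs
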