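import Pool.Agent.TIP.SoftW

/-!
# TWN/SoftF: the soft part of the local limit for functions (helper22)

`TIP/SoftW` with a function `f` with values in `[0, 1]` in place of the event `Q` (product with a uniform threshold).

* `ScaleF`: the hypotheses at one scale; **`softf_fam`**: finitely many measures of mass at most one, the same inner
  means `ν i`, one scale for all of them.
-/

set_option autoImplicit false

namespace HexObs

namespace TIP

open Finset

variable {Ω : Type*}

/-- the hypotheses at one scale, for a function -/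
structure ScaleF (S : Finset Ω) (p : Ω → ℝ) (f : Ω → ℝ) (D : ℕ → Ω → ℤ) (W : ℕ → Ω → ℝ) (N : ℕ → Set Ω)
    (M i : ℕ) (c ε δ C s ν : ℝ) : Prop where
  /-- the weight -/
  w0 : ∀ t ∈ S, 0 ≤ W i t
  /-- the discretisation -/
  wd : ∀ t ∈ S, |W i t - δ * D i t| ≤ δ
  /-- the second moment -/
  w2 : ∑ t ∈ S, p t * (W i t) ^ 2 ≤ C ^ 2
  /-- the mean inside is `ν` -/
  inn : ∀ φ : (ℕ → ℤ) → ℝ, (∀ x, |φ x| ≤ 1) →
    |∑ t ∈ S, p t * (W i t * ((f t - ν) * φ (pd D (i + 1) M t)))| ≤ s
  /-- the weight dominates the nice configurations -/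
  low : ∀ φ : (ℕ → ℤ) → ℝ, (∀ x, 0 ≤ φ x ∧ φ x ≤ 1) →
    c * ∑ t ∈ S, p t * (ind (t ∈ N i) * φ (pd D (i + 1) M t)) ≤
      (∑ t ∈ S, p t * (W i t * φ (pd D (i + 1) M t))) + s
  /-- most configurations are nice -/
  nice : ms S p (fun t => ¬ t ∈ N i) ≤ ε

/-- the part of the thresholds below `x` -/
noncomputable def thr (J : ℕ) (x : ℝ) : ℝ := (∑ j ∈ range J, ind ((j : ℝ) < J * x)) / J

lemma thr_bd {J : ℕ} (hJ : 0 < J) {x : ℝ} (h0 : 0 ≤ x) (h1 : x ≤ 1) : x ≤ thr J x ∧ thr J x ≤ x + 1 / J := by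
  classical
  have hJR : (0 : ℝ) < J := by exact_mod_cast hJ
  have e : ∑ j ∈ range J, ind ((j : ℝ) < J * x) = (⌈(J : ℝ) * x⌉₊ : ℝ) := by
    have e1 : ∑ j ∈ range J, ind ((j : ℝ) < J * x) = (((range J).filter fun j : ℕ => (j : ℝ) < J * x).card : ℝ) := by
      rw [card_filter, Nat.cast_sum]
      refine sum_congr rfl fun j _ => ?_
      by_cases h : (j : ℝ) < J * x
      · rw [ind_pos h, if_pos h, Nat.cast_one]
      · rw [ind_neg h, if_neg h, Nat.cast_zero]
    rw [e1]
    congr 1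
    have e2 : (range J).filter (fun j : ℕ => (j : ℝ) < J * x) = range ⌈(J : ℝ) * x⌉₊ := by
      ext j
      rw [mem_filter, mem_range, mem_range, Nat.lt_ceil]
      refine ⟨fun h => h.2, fun h => ⟨?_, h⟩⟩
      have h2 : (j : ℝ) < J := h.trans_le (by nlinarith)
      exact_mod_cast h2
    rw [e2, card_range]
  unfold thr
  rw [e]
  have hx : 0 ≤ (J : ℝ) * x := mul_nonneg hJR.le h0
  constructor
  · rw [le_div_iff₀ hJR, mul_comm]
    exact Nat.le_ceil _
  · rw [div_le_iff₀ hJR]
    have h2 := (Nat.ceil_lt_add_one hx).le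
    have e3 : (x + 1 / J) * J = J * x + 1 := by
      field_simp
    rw [e3]
    exact h2

/-- product of a space with the thresholds: sums -/
lemma sum_thr {S : Finset Ω} {p : Ω → ℝ} {J : ℕ} (g : Ω → ℝ) (h : Ω → ℕ → ℝ) :
    ∑ x ∈ S ×ˢ range J, p x.1 / J * (g x.1 * h x.1 x.2) = ∑ t ∈ S, p t * (g t * ((∑ j ∈ range J, h t j) / J)) := by
  rw [sum_product]
  refine sum_congr rfl fun t _ => ?_
  rw [sum_div, mul_sum, mul_sum]
  refine sum_congr rfl fun j _ => ?_
  ring

lemma sum_thr1 {S : Finset Ω} {p : Ω → ℝ} {J : ℕ} (hJ : 0 < J) (g : Ω → ℝ) :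
    ∑ x ∈ S ×ˢ range J, p x.1 / J * g x.1 = ∑ t ∈ S, p t * g t := by
  have hJR : (0 : ℝ) < J := by exact_mod_cast hJ
  rw [sum_product]
  refine sum_congr rfl fun t _ => ?_
  show ∑ _y ∈ range J, p t / J * g t = p t * g t
  rw [sum_const, card_range, nsmul_eq_mul]
  field_simp

/-- **functions: finitely many measures of mass at most one with the same inner means, one scale for all of them** -/
theorem softf_fam {κ : Type*} (K : Finset κ) {S : κ → Finset Ω} {p : κ → Ω → ℝ} (hp : ∀ k ∈ K, ∀ t, 0 ≤ p k t)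
    (h1 : ∀ k ∈ K, ∑ t ∈ S k, p k t ≤ 1) {f : κ → Ω → ℝ} (hf : ∀ k ∈ K, ∀ t, 0 ≤ f k t ∧ f k t ≤ 1)
    {D : κ → ℕ → Ω → ℤ} {W : κ → ℕ → Ω → ℝ} {N : κ → ℕ → Set Ω}
    {M : ℕ} (hM : 0 < M) {c ε δ C s : ℝ} {ν : ℕ → ℝ} (hc : 0 < c) (hC : 0 ≤ C) (hδ : 0 ≤ δ) (hν0 : ∀ i, 0 ≤ ν i)
    (hν1 : ∀ i, ν i ≤ 1) (H : ∀ k ∈ K, ∀ i, i < M → ScaleF (S k) (p k) (f k) (D k) (W k) (N k) M i c ε δ C s (ν i))
    {η : ℝ} (hη : 0 < η) :
    ∃ i, i < M ∧ ∀ k ∈ K, |∑ t ∈ S k, p k t * f k t - ν i * ∑ t ∈ S k, p k t| ≤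
      ε + (2 * s + 2 * δ + C * Real.sqrt (K.card / M)) / c + η := by
  classical
  obtain ⟨J, hJ⟩ : ∃ J : ℕ, 2 * (C + 1) / c / (η / 2) + 1 / (η / 2) + 1 ≤ J := exists_nat_ge _
  have hq1 : 0 ≤ 2 * (C + 1) / c / (η / 2) := by positivity
  have hq2 : 0 ≤ 1 / (η / 2) := by positivity
  have hJR : (0 : ℝ) < J := by linarith
  have hJ0 : 0 < J := by exact_mod_cast hJR
  have hJ1 : 1 / (J : ℝ) ≤ η / 2 := by
    rw [div_le_iff₀ hJR]
    have h2 : 1 / (η / 2) ≤ J := by linarith
    rw [div_le_iff₀ (by positivity)] at h2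
    linarith
  have hJ2 : 2 * ((C + 1) / J) / c ≤ η / 2 := by
    have h2 : 2 * (C + 1) / c / (η / 2) ≤ J := by linarith
    rw [div_le_iff₀ (by positivity)] at h2
    have e : 2 * ((C + 1) / J) / c = 2 * (C + 1) / c / J := by ring
    rw [e, div_le_iff₀ hJR]
    linarith
  obtain ⟨Q, hQ⟩ : ∃ Q : κ → Set (Ω × ℕ), Q = fun k => {x | (x.2 : ℝ) < J * f k x.1} := ⟨_, rfl⟩
  obtain ⟨i, hi, h⟩ := softw_fam (Ω := Ω × ℕ) K (S := fun k => S k ×ˢ range J) (p := fun k x => p k x.1 / J)
    (fun k hk x => div_nonneg (hp k hk _) hJR.le)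
    (fun k hk => by
      have e := sum_thr1 (S := S k) (p := p k) hJ0 (fun _ => 1)
      simp only [mul_one] at e
      rw [e]
      exact h1 k hk)
    (Q := Q) (D := fun k i x => D k i x.1) (W := fun k i x => W k i x.1) (N := fun k i => {x | x.1 ∈ N k i})
    hM (c := c) (ε := ε) (δ := δ) (C := C) (s := s + (C + 1) / J) (ν := ν) hc hC hδ hν0 hν1 (fun k hk i hi => by
      have HH := H k hk i hi
      -- the first moment
      have hW1 : ∑ t ∈ S k, p k t * W k i t ≤ C + 1 := by
        have a : ∑ t ∈ S k, p k t * W k i t ≤ (∑ t ∈ S k, p k t * (C + 1) + ∑ t ∈ S k, p k t * ((W k i t) ^ 2 / (C + 1))) / 2 := by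
          rw [← sum_add_distrib, sum_div]
          refine sum_le_sum fun t _ => ?_
          have hh := hp k hk t
          have b : W k i t ≤ ((C + 1) + (W k i t) ^ 2 / (C + 1)) / 2 := by
            have b1 : 0 ≤ (W k i t - (C + 1)) ^ 2 / (C + 1) := by positivity
            have b2 : (W k i t - (C + 1)) ^ 2 / (C + 1) = (W k i t) ^ 2 / (C + 1) - 2 * W k i t + (C + 1) := by
              field_simp
              ring
            linarith
          have b3 := mul_le_mul_of_nonneg_left b hh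
          linarith
        have b : ∑ t ∈ S k, p k t * (C + 1) ≤ C + 1 := by
          rw [← sum_mul]
          have := h1 k hk
          nlinarith
        have c1 : ∑ t ∈ S k, p k t * ((W k i t) ^ 2 / (C + 1)) ≤ C + 1 := by
          have e : ∑ t ∈ S k, p k t * ((W k i t) ^ 2 / (C + 1)) = (∑ t ∈ S k, p k t * (W k i t) ^ 2) / (C + 1) := by
            rw [sum_div]
            exact sum_congr rfl fun t _ => by ring
          rw [e, div_le_iff₀ (by linarith)]
          have := HH.w2
          nlinarith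
        linarith
      refine ⟨fun x hx => HH.w0 _ (mem_product.1 hx).1, fun x hx => HH.wd _ (mem_product.1 hx).1, ?_, ?_, ?_, ?_⟩
      · have e := sum_thr1 (S := S k) (p := p k) hJ0 (fun t => (W k i t) ^ 2)
        refine (le_of_eq e).trans HH.w2
      · intro φ hφ
        have e : ∑ x ∈ S k ×ˢ range J, p k x.1 / J * (W k i x.1 * ((ind (x ∈ Q k) - ν i) *
            φ (pd (fun i x => D k i x.1) (i + 1) M x))) = ∑ t ∈ S k, p k t * (W k i t * ((f k t - ν i) *
              φ (pd (D k) (i + 1) M t))) + ∑ t ∈ S k, p k t * (W k i t * ((thr J (f k t) - f k t) *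
              φ (pd (D k) (i + 1) M t))) := by
          have e1 := sum_thr (S := S k) (p := p k) (J := J) (fun t => W k i t * φ (pd (D k) (i + 1) M t))
            (fun t j => ind ((j : ℝ) < J * f k t) - ν i)
          have e2 : ∑ x ∈ S k ×ˢ range J, p k x.1 / J * (W k i x.1 * ((ind (x ∈ Q k) - ν i) *
            φ (pd (fun i x => D k i x.1) (i + 1) M x))) = ∑ x ∈ S k ×ˢ range J, p k x.1 / J *
              (W k i x.1 * φ (pd (D k) (i + 1) M x.1) * (ind ((x.2 : ℝ) < J * f k x.1) - ν i)) := by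
            refine sum_congr rfl fun x _ => ?_
            have e3 : pd (fun i (x : Ω × ℕ) => D k i x.1) (i + 1) M x = pd (D k) (i + 1) M x.1 := rfl
            have e4 : ind (x ∈ Q k) = ind ((x.2 : ℝ) < J * f k x.1) := by rw [hQ]; rfl
            rw [e3, e4]
            ring
          rw [e2, e1, ← sum_add_distrib]
          refine sum_congr rfl fun t _ => ?_
          have e5 : (∑ j ∈ range J, (ind ((j : ℝ) < J * f k t) - ν i)) / J = thr J (f k t) - ν i := by
            unfold thr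
            rw [sum_sub_distrib, sum_const, card_range, nsmul_eq_mul, sub_div]
            congr 1
            field_simp
          rw [e5]
          ring
        rw [e]
        refine (abs_add_le _ _).trans (add_le_add (HH.inn φ hφ) ?_)
        refine (abs_sum_le_sum_abs _ _).trans ?_
        calc ∑ t ∈ S k, |p k t * (W k i t * ((thr J (f k t) - f k t) * φ (pd (D k) (i + 1) M t)))| ≤
            ∑ t ∈ S k, p k t * W k i t * (1 / J) := by
              refine sum_le_sum fun t ht => ?_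
              have w0 := HH.w0 t ht
              obtain ⟨t1, t2⟩ := thr_bd hJ0 (hf k hk t).1 (hf k hk t).2
              rw [abs_mul, abs_of_nonneg (hp k hk t), abs_mul, abs_of_nonneg w0, abs_mul,
                abs_of_nonneg (by linarith : 0 ≤ thr J (f k t) - f k t), mul_assoc]
              refine mul_le_mul_of_nonneg_left (mul_le_mul_of_nonneg_left ?_ w0) (hp k hk t)
              calc (thr J (f k t) - f k t) * |φ (pd (D k) (i + 1) M t)| ≤ (1 / J) * 1 :=
                    mul_le_mul (by linarith) (hφ _) (abs_nonneg _) (by positivity)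
                _ = 1 / J := mul_one _
          _ = (∑ t ∈ S k, p k t * W k i t) * (1 / J) := by rw [sum_mul]
          _ ≤ (C + 1) * (1 / J) := mul_le_mul_of_nonneg_right hW1 (by positivity)
          _ = (C + 1) / J := by ring
      · intro φ hφ
        have e1 := sum_thr1 (S := S k) (p := p k) hJ0 (fun t => ind (t ∈ N k i) * φ (pd (D k) (i + 1) M t))
        have e2 := sum_thr1 (S := S k) (p := p k) hJ0 (fun t => W k i t * φ (pd (D k) (i + 1) M t))
        have h3 := HH.low φ hφ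
        rw [← e1, ← e2] at h3
        have h4 : 0 ≤ (C + 1) / (J : ℝ) := by positivity
        refine h3.trans ?_
        have e3 : ∀ x : Ω × ℕ, pd (fun i (x : Ω × ℕ) => D k i x.1) (i + 1) M x = pd (D k) (i + 1) M x.1 := fun _ => rfl
        simp only [e3]
        linarith
      · have e := sum_thr1 (S := S k) (p := p k) hJ0 (fun t => ind (¬ t ∈ N k i))
        refine (le_of_eq ?_).trans HH.nice
        unfold ms
        exact e)
  refine ⟨i, hi, fun k hk => ?_⟩
  have h2 := h k hk
  have e1 : ms (S k ×ˢ range J) (fun x => p k x.1 / J) (fun t => t ∈ Q k) = ∑ t ∈ S k, p k t * thr J (f k t) := by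
    have e := sum_thr (S := S k) (p := p k) (J := J) (fun _ => 1) (fun t j => ind ((j : ℝ) < J * f k t))
    unfold ms
    simp only [one_mul] at e
    rw [hQ]
    exact e
  have e2 : ∑ x ∈ S k ×ˢ range J, p k x.1 / J = ∑ t ∈ S k, p k t := by
    have e := sum_thr1 (S := S k) (p := p k) hJ0 (fun _ => 1)
    simpa only [mul_one] using e
  rw [e1, e2] at h2
  have h3 : |∑ t ∈ S k, p k t * f k t - ∑ t ∈ S k, p k t * thr J (f k t)| ≤ 1 / J := by
    rw [← sum_sub_distrib]
    refine (abs_sum_le_sum_abs _ _).trans ?_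
    calc ∑ t ∈ S k, |p k t * f k t - p k t * thr J (f k t)| ≤ ∑ t ∈ S k, p k t * (1 / J) := by
          refine sum_le_sum fun t _ => ?_
          obtain ⟨t1, t2⟩ := thr_bd hJ0 (hf k hk t).1 (hf k hk t).2
          rw [← mul_sub, abs_mul, abs_of_nonneg (hp k hk t), abs_sub_comm,
            abs_of_nonneg (by linarith : 0 ≤ thr J (f k t) - f k t)]
          exact mul_le_mul_of_nonneg_left (by linarith) (hp k hk t)
      _ = (∑ t ∈ S k, p k t) * (1 / J) := by rw [sum_mul]
      _ ≤ 1 * (1 / J) := mul_le_mul_of_nonneg_right (h1 k hk) (by positivity)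
      _ = 1 / J := one_mul _
  have h4 := abs_sub_le (∑ t ∈ S k, p k t * f k t) (∑ t ∈ S k, p k t * thr J (f k t)) (ν i * ∑ t ∈ S k, p k t)
  have h5 : (2 * (s + (C + 1) / J) + 2 * δ + C * Real.sqrt (K.card / M)) / c =
      (2 * s + 2 * δ + C * Real.sqrt (K.card / M)) / c + 2 * ((C + 1) / J) / c := by ring
  rw [h5] at h2
  linarith

end TIP

end HexObs
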